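import Mathlib
import Pool.Agent.R175.Disk
import Pool.Agent.R175.GridPath
import Pool.Agent.R175.GridTile
import Pool.Agent.R175.Poly
import Pool.Agent.R175.PolyDisk

/-!
# A 55-omino that occurs in no tiling of the plane by 55-ominoes

The 55-omino `X` bounds two square chambers of area 36 which open into a common corridor of width one.
-/

set_option autoImplicit false

namespace Pool.Agent.Results.MP_60dc17_co.NotEvery

open Set MeasureTheory Pool.Agent.R175.Disk Pool.Agent.R175.Poly Pool.Agent.R175.PolyDisk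
open Pool.Agent.R175.GridPath (Adj)
open Pool.Agent.R175.GridTile (cell)

/-- A set of `n` cells whose union is a closed topological disk. -/
def IsOmino (n : ℕ) (S : Finset (ℤ × ℤ)) : Prop := S.card = n ∧ IsDisk (region S)

/-- A tiling of the plane. -/
structure IsTiling (F : Set (Set ℂ)) : Prop where
  countable : F.Countable
  closed : ∀ T ∈ F, IsClosed T
  cover : ⋃₀ F = univ
  disjoint : ∀ T ∈ F, ∀ T' ∈ F, T ≠ T' → Disjoint (interior T) (interior T')

/-- All members of the family are congruent copies of `n`-ominoes, placed by arbitrary isometries. -/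
def ByOminoes (n : ℕ) (F : Set (Set ℂ)) : Prop :=
  ∀ T ∈ F, ∃ S, IsOmino n S ∧ ∃ g : ℂ ≃ᵢ ℂ, T = g '' region S

/-- The isometry `g` maps the family onto itself. -/
def IsSymmetry (F : Set (Set ℂ)) (g : ℂ ≃ᵢ ℂ) : Prop := (fun T => g '' T) '' F = F

/-- Congruent tiles are equivalent under the symmetry group. -/
def Equitransitive (F : Set (Set ℂ)) : Prop :=
  ∀ T ∈ F, ∀ T' ∈ F, (∃ g : ℂ ≃ᵢ ℂ, g '' T = T') → ∃ g, IsSymmetry F g ∧ g '' T = T'

/-- The cells of `X`, as a snake. -/
def XL : List (ℤ × ℤ) :=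
  [(6, 1), (6, 2), (6, 3), (6, 4), (6, 5), (6, 6), (5, 6), (4, 6), (3, 6), (2, 6), (1, 6), (0, 6), (-1, 6),
   (-1, 5), (-1, 4), (-1, 3), (-1, 2), (-1, 1), (-1, 0), (-1, -1), (0, -1), (1, -1), (2, -1), (3, -1),
   (4, -1), (5, -1), (6, -1), (7, -1), (8, -1), (9, -1), (10, -1), (11, -1), (12, -1), (13, -1), (14, -1),
   (15, -1), (15, 0), (15, 1), (15, 2), (15, 3), (15, 4), (15, 5), (15, 6), (14, 6), (13, 6), (12, 6),
   (11, 6), (10, 6), (9, 6), (8, 6), (8, 5), (8, 4), (8, 3), (8, 2), (8, 1)]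

/-- The 55-omino. -/
def X : Finset (ℤ × ℤ) := XL.toFinset

theorem X_omino : IsOmino 55 X := ⟨by decide, snake_disk XL (by decide)⟩

/-! ### Walls -/

theorem exists_int {x0 x1 : ℤ} (h : x0 < x1) {x : ℝ} (h0 : (x0 : ℝ) ≤ x) (h1 : x ≤ x1) :
    ∃ i, x0 ≤ i ∧ i < x1 ∧ (i : ℝ) ≤ x ∧ x ≤ i + 1 := by
  by_cases hx : x < x1
  · exact ⟨⌊x⌋, Int.le_floor.2 h0, Int.floor_lt.2 hx, Int.floor_le x, (Int.lt_floor_add_one x).le⟩
  · push Not at hx
    refine ⟨x1 - 1, by omega, by omega, ?_, ?_⟩
    · push_cast; linarith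
    · push_cast; linarith

theorem rect_sub {x0 x1 y0 y1 : ℤ} (hx : x0 < x1) (hy : y0 < y1) {S : Finset (ℤ × ℤ)}
    (h : ∀ i ∈ Finset.Ico x0 x1, ∀ j ∈ Finset.Ico y0 y1, (i, j) ∈ S) : rect x0 x1 y0 y1 ⊆ region S := by
  intro z hz
  rw [mem_rect] at hz
  obtain ⟨i, a1, a2, a3, a4⟩ := exists_int hx hz.1.1 hz.1.2
  obtain ⟨j, b1, b2, b3, b4⟩ := exists_int hy hz.2.1 hz.2.2
  exact mem_region.2 ⟨(i, j), h i (Finset.mem_Ico.2 ⟨a1, a2⟩) j (Finset.mem_Ico.2 ⟨b1, b2⟩),
    mem_cell.2 ⟨⟨a3, a4⟩, b3, b4⟩⟩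

theorem wall_left : rect (-1) 0 (-1) 7 ⊆ region X := rect_sub (by decide) (by decide) (by decide)
theorem wall_bottom : rect (-1) 16 (-1) 0 ⊆ region X := rect_sub (by decide) (by decide) (by decide)
theorem wall_right : rect 15 16 (-1) 7 ⊆ region X := rect_sub (by decide) (by decide) (by decide)
theorem wall_topL : rect (-1) 7 6 7 ⊆ region X := rect_sub (by decide) (by decide) (by decide)
theorem wall_topR : rect 8 16 6 7 ⊆ region X := rect_sub (by decide) (by decide) (by decide)
theorem wall_sepL : rect 6 7 1 7 ⊆ region X := rect_sub (by decide) (by decide) (by decide)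
theorem wall_sepR : rect 8 9 1 7 ⊆ region X := rect_sub (by decide) (by decide) (by decide)

/-! ### Tiles and their skeletons -/

/-- `K` is the skeleton of the tile `T`. -/
def Skel (T K : Set ℂ) : Prop := ∃ S, IsOmino 55 S ∧ ∃ g : ℂ ≃ᵢ ℂ, T = g '' region S ∧ K = g '' skel S

/-- The setting: a tiling by 55-ominoes that contains `X`. -/
structure Setting (F : Set (Set ℂ)) : Prop where
  tiling : IsTiling F
  ominoes : ByOminoes 55 F
  mem : region X ∈ F

theorem exists_skel {F : Set (Set ℂ)} (hF : Setting F) {T : Set ℂ} (hT : T ∈ F) : ∃ K, Skel T K := by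
  obtain ⟨S, hS, g, rfl⟩ := hF.ominoes T hT
  exact ⟨_, S, hS, g, rfl, rfl⟩

theorem Skel.connected {T K : Set ℂ} (h : Skel T K) : IsPreconnected K := by
  obtain ⟨S, hS, g, -, rfl⟩ := h
  exact (skel_connected hS.2).image _ g.continuous.continuousOn

theorem Skel.ball {T K : Set ℂ} (h : Skel T K) {z : ℂ} (hz : z ∈ K) : Metric.ball z (1 / 2) ⊆ T := by
  obtain ⟨S, hS, g, rfl, rfl⟩ := h
  obtain ⟨w, hw, rfl⟩ := hz
  rw [← g.image_ball]
  exact image_mono (ball_skel hw)

theorem Skel.interior {T K : Set ℂ} (h : Skel T K) {z : ℂ} (hz : z ∈ K) : z ∈ interior T :=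
  mem_interior.2 ⟨_, h.ball hz, Metric.isOpen_ball, Metric.mem_ball_self (by norm_num)⟩

theorem Skel.near {T K : Set ℂ} (h : Skel T K) {z : ℂ} (hz : z ∈ T) : ∃ q ∈ K, dist z q ≤ 3 / 4 := by
  obtain ⟨S, hS, g, rfl, rfl⟩ := h
  obtain ⟨w, hw, rfl⟩ := hz
  obtain ⟨c, hc, hwc⟩ := mem_region.1 hw
  refine ⟨g (ctr c), ⟨_, ctr_mem_skel hc, rfl⟩, ?_⟩
  rw [g.isometry.dist_eq]
  exact near_ctr hwc

theorem Skel.volume_le {T K : Set ℂ} (h : Skel T K) : volume T ≤ 55 := by
  obtain ⟨S, hS, g, rfl, rfl⟩ := h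
  rw [volume_image]
  refine (volume_region_le S).trans ?_
  rw [hS.1]; norm_num

theorem Skel.exists_open {T K : Set ℂ} (h : Skel T K) : ∃ U, IsOpen U ∧ U ⊆ T ∧ volume U = 55 := by
  obtain ⟨S, hS, g, rfl, rfl⟩ := h
  refine ⟨g '' openRegion S, g.toHomeomorph.isOpenMap _ (openRegion_open S),
    image_mono (openRegion_sub S), ?_⟩
  rw [volume_image, volume_openRegion, hS.1]; norm_num

theorem cell_sub_closure (c : ℤ × ℤ) : cell c ⊆ closure (interior (cell c)) := by
  have := (cell_convex c).closure_interior_eq_closure_of_nonempty_interior ⟨_, ctr_mem c⟩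
  rw [this]
  exact subset_closure

/-- An open subset of another tile does not meet `X`. -/
theorem open_disjoint {F : Set (Set ℂ)} (hF : Setting F) {T : Set ℂ} (hT : T ∈ F) (hne : T ≠ region X)
    {U : Set ℂ} (hU : IsOpen U) (hUT : U ⊆ T) {z : ℂ} (hz : z ∈ U) : z ∉ region X := by
  intro hzX
  obtain ⟨c, hc, hzc⟩ := mem_region.1 hzX
  have h1 := mem_closure_iff.1 (cell_sub_closure c hzc) U hU hz
  obtain ⟨w, hw, hwc⟩ := h1
  have h2 : w ∈ interior T := mem_interior.2 ⟨U, hUT, hU, hw⟩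
  have h3 : w ∈ interior (region X) := by
    apply interior_mono _ hwc
    intro u hu
    exact mem_region.2 ⟨c, hc, hu⟩
  exact disjoint_left.1 (hF.tiling.disjoint T hT _ hF.mem hne) h2 h3

/-- Points of a skeleton have distance at least `1/2` from `X`. -/
theorem skel_dist {F : Set (Set ℂ)} (hF : Setting F) {T K : Set ℂ} (hT : T ∈ F) (hne : T ≠ region X)
    (hK : Skel T K) {q w : ℂ} (hq : q ∈ K) (hw : w ∈ region X) : 1 / 2 ≤ dist w q := by
  by_contra hcon
  push Not at hcon
  exact open_disjoint hF hT hne Metric.isOpen_ball (hK.ball hq) (Metric.mem_ball.2 hcon) hw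

theorem skel_notMem {F : Set (Set ℂ)} (hF : Setting F) {T K : Set ℂ} (hT : T ∈ F) (hne : T ≠ region X)
    (hK : Skel T K) {q : ℂ} (hq : q ∈ K) : q ∉ region X := by
  intro h
  have := skel_dist hF hT hne hK hq h
  rw [dist_self] at this
  norm_num at this

/-! ### Boxes and gates -/

/-- A closed box. -/
def box (a b c d : ℝ) : Set ℂ := Icc a b ×ℂ Icc c d

theorem mem_box {a b c d : ℝ} {z : ℂ} : z ∈ box a b c d ↔ (a ≤ z.re ∧ z.re ≤ b) ∧ (c ≤ z.im ∧ z.im ≤ d) := by
  rw [box, Complex.mem_reProdIm]; rfl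

/-- A connected set that meets a box but is not contained in it meets the boundary of the box. -/
theorem meets_boundary {K : Set ℂ} (hK : IsPreconnected K) {a b c d : ℝ} {p q : ℂ} (hp : p ∈ K)
    (hpB : p ∈ box a b c d) (hq : q ∈ K) (hqB : q ∉ box a b c d) :
    ∃ z ∈ K, z ∈ box a b c d ∧ (z.re = a ∨ z.re = b ∨ z.im = c ∨ z.im = d) := by
  by_contra hcon
  push Not at hcon
  have hcl : IsClosed (box a b c d) := IsClosed.reProdIm isClosed_Icc isClosed_Icc
  have hin : ∀ z ∈ K, z ∈ box a b c d → z ∈ interior (box a b c d) := by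
    intro z hz hzB
    obtain ⟨h1, h2, h3, h4⟩ := hcon z hz hzB
    rw [mem_box] at hzB
    obtain ⟨⟨k1, k2⟩, k3, k4⟩ := hzB
    rw [box, Complex.interior_reProdIm, interior_Icc, interior_Icc, Complex.mem_reProdIm]
    exact ⟨⟨lt_of_le_of_ne k1 (Ne.symm h1), lt_of_le_of_ne k2 h2⟩, lt_of_le_of_ne k3 (Ne.symm h3),
      lt_of_le_of_ne k4 h4⟩
  obtain ⟨z, -, h1, h2⟩ := hK (interior (box a b c d)) (box a b c d)ᶜ isOpen_interior hcl.isOpen_compl
    (fun z hz => by
      by_cases h : z ∈ box a b c d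
      · exact Or.inl (hin z hz h)
      · exact Or.inr h) ⟨p, hp, hin p hp hpB⟩ ⟨q, hq, hqB⟩
  exact h2 (interior_subset h1)

theorem dist_vert (x y y' : ℝ) : dist (⟨x, y⟩ : ℂ) ⟨x, y'⟩ = |y - y'| := by
  rw [Complex.dist_eq_re_im]
  simp [Real.sqrt_sq_eq_abs]

theorem dist_horiz (x x' y : ℝ) : dist (⟨x, y⟩ : ℂ) ⟨x', y⟩ = |x - x'| := by
  rw [Complex.dist_eq_re_im]
  simp [Real.sqrt_sq_eq_abs]

/-- The left gate. -/
noncomputable def gL : ℂ := ⟨13 / 2, 1 / 2⟩
/-- The right gate. -/
noncomputable def gR : ℂ := ⟨17 / 2, 1 / 2⟩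
/-- The exit gate. -/
noncomputable def gV : ℂ := ⟨15 / 2, 13 / 2⟩

/-- Behind the left gate. -/
def BL : Set ℂ := box (-1 / 2) (13 / 2) (-1 / 2) (13 / 2)
/-- Behind the right gate. -/
def BR : Set ℂ := box (17 / 2) (31 / 2) (-1 / 2) (13 / 2)
/-- Behind the exit gate. -/
def BV : Set ℂ := box (-1 / 2) (31 / 2) (-1 / 2) (13 / 2)

/-- The cells around the left chamber and the corridor. -/
noncomputable def E : Finset (ℤ × ℤ) := ((Finset.Ico (-1) 9 ×ˢ Finset.Ico (-1) 7) ∪ (Finset.Ico 6 9 ×ˢ Finset.Ico 7 8) ∪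
    (Finset.Ico 9 10 ×ˢ Finset.Ico (-1) 2))

theorem hE : (E \ X).card = 50 := by decide +kernel
theorem hE1 : ∀ i ∈ Finset.Ico (-1 : ℤ) 9, ∀ j ∈ Finset.Ico (-1 : ℤ) 7, (i, j) ∈ E := by decide +kernel
theorem hE2 : ∀ i ∈ Finset.Ico (9 : ℤ) 10, ∀ j ∈ Finset.Ico (-1 : ℤ) 2, (i, j) ∈ E := by decide +kernel
theorem hE3 : ∀ i ∈ Finset.Ico (6 : ℤ) 9, ∀ j ∈ Finset.Ico (7 : ℤ) 8, (i, j) ∈ E := by decide +kernel

section

variable {F : Set (Set ℂ)} (hF : Setting F) {T K : Set ℂ} (hT : T ∈ F) (hne : T ≠ region X) (hK : Skel T K)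

include hF hT hne hK

/-- In a vertical cross section of a horizontal corridor. -/
theorem corridor_vert {q : ℂ} (hq : q ∈ K) {x : ℝ} (hre : q.re = x) (h0 : (⟨x, 0⟩ : ℂ) ∈ region X)
    (h1 : (⟨x, 1⟩ : ℂ) ∈ region X) (a0 : 0 < q.im) (a1 : q.im < 1) : q = ⟨x, 1 / 2⟩ := by
  have e : q = ⟨x, q.im⟩ := Complex.ext hre rfl
  have d0 := skel_dist hF hT hne hK hq h0
  have d1 := skel_dist hF hT hne hK hq h1
  rw [e, dist_vert] at d0 d1
  rw [zero_sub, abs_neg, abs_of_pos a0] at d0
  rw [abs_of_pos (by linarith)] at d1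
  apply Complex.ext
  · exact hre
  · change q.im = 1 / 2
    linarith

theorem gateL {p q : ℂ} (hp : p ∈ K) (hpB : p ∈ BL) (hq : q ∈ K) (hqB : q ∉ BL) : gL ∈ K := by
  obtain ⟨z, hz, hzB, hz'⟩ := meets_boundary hK.connected hp hpB hq hqB
  have hzX := skel_notMem hF hT hne hK hz
  rw [mem_box] at hzB
  obtain ⟨⟨k1, k2⟩, k3, k4⟩ := hzB
  rcases hz' with h | h | h | h
  · exact absurd (wall_left (mem_rect.2 (by push_cast; exact ⟨⟨by linarith, by linarith⟩, by linarith, by linarith⟩))) hzX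
  · by_cases c0 : z.im ≤ 0
    · exact absurd (wall_bottom (mem_rect.2 (by push_cast; exact ⟨⟨by linarith, by linarith⟩, by linarith, by linarith⟩))) hzX
    · by_cases c1 : 1 ≤ z.im
      · exact absurd (wall_sepL (mem_rect.2 (by push_cast; exact ⟨⟨by linarith, by linarith⟩, by linarith, by linarith⟩))) hzX
      · push Not at c0 c1
        have := corridor_vert hF hT hne hK hz h
          (wall_bottom (mem_rect.2 (by push_cast; exact ⟨⟨by norm_num, by norm_num⟩, by norm_num, by norm_num⟩)))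
          (wall_sepL (mem_rect.2 (by push_cast; exact ⟨⟨by norm_num, by norm_num⟩, by norm_num, by norm_num⟩))) c0 c1
        rw [this] at hz
        exact hz
  · exact absurd (wall_bottom (mem_rect.2 (by push_cast; exact ⟨⟨by linarith, by linarith⟩, by linarith, by linarith⟩))) hzX
  · exact absurd (wall_topL (mem_rect.2 (by push_cast; exact ⟨⟨by linarith, by linarith⟩, by linarith, by linarith⟩))) hzX

theorem gateR {p q : ℂ} (hp : p ∈ K) (hpB : p ∈ BR) (hq : q ∈ K) (hqB : q ∉ BR) : gR ∈ K := by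
  obtain ⟨z, hz, hzB, hz'⟩ := meets_boundary hK.connected hp hpB hq hqB
  have hzX := skel_notMem hF hT hne hK hz
  rw [mem_box] at hzB
  obtain ⟨⟨k1, k2⟩, k3, k4⟩ := hzB
  rcases hz' with h | h | h | h
  · by_cases c0 : z.im ≤ 0
    · exact absurd (wall_bottom (mem_rect.2 (by push_cast; exact ⟨⟨by linarith, by linarith⟩, by linarith, by linarith⟩))) hzX
    · by_cases c1 : 1 ≤ z.im
      · exact absurd (wall_sepR (mem_rect.2 (by push_cast; exact ⟨⟨by linarith, by linarith⟩, by linarith, by linarith⟩))) hzX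
      · push Not at c0 c1
        have := corridor_vert hF hT hne hK hz h
          (wall_bottom (mem_rect.2 (by push_cast; exact ⟨⟨by norm_num, by norm_num⟩, by norm_num, by norm_num⟩)))
          (wall_sepR (mem_rect.2 (by push_cast; exact ⟨⟨by norm_num, by norm_num⟩, by norm_num, by norm_num⟩))) c0 c1
        rw [this] at hz
        exact hz
  · exact absurd (wall_right (mem_rect.2 (by push_cast; exact ⟨⟨by linarith, by linarith⟩, by linarith, by linarith⟩))) hzX
  · exact absurd (wall_bottom (mem_rect.2 (by push_cast; exact ⟨⟨by linarith, by linarith⟩, by linarith, by linarith⟩))) hzX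
  · exact absurd (wall_topR (mem_rect.2 (by push_cast; exact ⟨⟨by linarith, by linarith⟩, by linarith, by linarith⟩))) hzX

theorem gateV {p q : ℂ} (hp : p ∈ K) (hpB : p ∈ BV) (hq : q ∈ K) (hqB : q ∉ BV) : gV ∈ K := by
  obtain ⟨z, hz, hzB, hz'⟩ := meets_boundary hK.connected hp hpB hq hqB
  have hzX := skel_notMem hF hT hne hK hz
  rw [mem_box] at hzB
  obtain ⟨⟨k1, k2⟩, k3, k4⟩ := hzB
  rcases hz' with h | h | h | h
  · exact absurd (wall_left (mem_rect.2 (by push_cast; exact ⟨⟨by linarith, by linarith⟩, by linarith, by linarith⟩))) hzX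
  · exact absurd (wall_right (mem_rect.2 (by push_cast; exact ⟨⟨by linarith, by linarith⟩, by linarith, by linarith⟩))) hzX
  · exact absurd (wall_bottom (mem_rect.2 (by push_cast; exact ⟨⟨by linarith, by linarith⟩, by linarith, by linarith⟩))) hzX
  · by_cases c0 : z.re ≤ 7
    · exact absurd (wall_topL (mem_rect.2 (by push_cast; exact ⟨⟨by linarith, by linarith⟩, by linarith, by linarith⟩))) hzX
    · by_cases c1 : 8 ≤ z.re
      · exact absurd (wall_topR (mem_rect.2 (by push_cast; exact ⟨⟨by linarith, by linarith⟩, by linarith, by linarith⟩))) hzX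
      · push Not at c0 c1
        have e : z = ⟨z.re, 13 / 2⟩ := Complex.ext rfl h
        have d0 := skel_dist hF hT hne hK hz (w := ⟨7, 13 / 2⟩)
          (wall_topL (mem_rect.2 (by push_cast; exact ⟨⟨by norm_num, by norm_num⟩, by norm_num, by norm_num⟩)))
        have d1 := skel_dist hF hT hne hK hz (w := ⟨8, 13 / 2⟩)
          (wall_topR (mem_rect.2 (by push_cast; exact ⟨⟨by norm_num, by norm_num⟩, by norm_num, by norm_num⟩)))
        rw [e, dist_horiz] at d0 d1
        rw [abs_of_neg (by linarith)] at d0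
        rw [abs_of_pos (by linarith)] at d1
        have : z = gV := by
          apply Complex.ext
          · change z.re = 15 / 2
            linarith
          · exact h
        rw [this] at hz
        exact hz

/-- A tile whose skeleton lies behind the exit gate and not behind the right gate is too small. -/
theorem confined (h1 : K ⊆ BV) (h2 : ∀ q ∈ K, q ∉ BR) : False := by
  obtain ⟨U, hU, hUT, hvol⟩ := hK.exists_open
  have hsub : U ⊆ region (E \ X) := by
    intro u hu
    have huX : u ∉ region X := open_disjoint hF hT hne hU hUT hu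
    obtain ⟨q, hq, hd⟩ := hK.near (hUT hu)
    have hqX := skel_notMem hF hT hne hK hq
    have hqV := h1 hq
    have hqR := h2 q hq
    rw [dist_eq_norm] at hd
    have hre := abs_le.1 ((Complex.abs_re_le_norm (u - q)).trans hd)
    have him := abs_le.1 ((Complex.abs_im_le_norm (u - q)).trans hd)
    rw [Complex.sub_re] at hre
    rw [Complex.sub_im] at him
    unfold BV at hqV
    unfold BR at hqR
    rw [mem_box] at hqV hqR
    obtain ⟨⟨k1, k2⟩, k3, k4⟩ := hqV
    have k5 : q.re < 17 / 2 := by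
      by_contra hcon
      push Not at hcon
      exact hqR ⟨⟨hcon, k2⟩, k3, k4⟩
    have k6 : 0 ≤ q.re := by
      by_contra hcon
      push Not at hcon
      exact hqX (wall_left (mem_rect.2 (by push_cast; exact ⟨⟨by linarith, by linarith⟩, by linarith, by linarith⟩)))
    have k7 : 0 ≤ q.im := by
      by_contra hcon
      push Not at hcon
      exact hqX (wall_bottom (mem_rect.2 (by push_cast; exact ⟨⟨by linarith, by linarith⟩, by linarith, by linarith⟩)))
    have hR : ∀ x0 x1 y0 y1 : ℤ, x0 < x1 → y0 < y1 →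
        (∀ i ∈ Finset.Ico x0 x1, ∀ j ∈ Finset.Ico y0 y1, (i, j) ∈ E) → u ∈ rect x0 x1 y0 y1 →
        u ∈ region (E \ X) := by
      intro x0 x1 y0 y1 hx hy hall hmem
      obtain ⟨c, hc, huc⟩ := mem_region.1 (rect_sub hx hy hall hmem)
      refine mem_region.2 ⟨c, Finset.mem_sdiff.2 ⟨hc, ?_⟩, huc⟩
      intro hcX
      exact huX (mem_region.2 ⟨c, hcX, huc⟩)
    by_cases c1 : u.im ≤ 7
    · by_cases c2 : u.re ≤ 9
      · exact hR (-1) 9 (-1) 7 (by decide) (by decide) hE1
          (mem_rect.2 (by push_cast; exact ⟨⟨by linarith, by linarith⟩, by linarith, by linarith⟩))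
      · push Not at c2
        have k8 : q.im < 1 := by
          by_contra hcon
          push Not at hcon
          exact hqX (wall_sepR (mem_rect.2 (by push_cast; exact ⟨⟨by linarith, by linarith⟩, by linarith, by linarith⟩)))
        exact hR 9 10 (-1) 2 (by decide) (by decide) hE2
          (mem_rect.2 (by push_cast; exact ⟨⟨by linarith, by linarith⟩, by linarith, by linarith⟩))
    · push Not at c1
      have k8 : 7 < q.re := by
        by_contra hcon
        push Not at hcon
        exact hqX (wall_topL (mem_rect.2 (by push_cast; exact ⟨⟨by linarith, by linarith⟩, by linarith, by linarith⟩)))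
      have k9 : q.re < 8 := by
        by_contra hcon
        push Not at hcon
        exact hqX (wall_topR (mem_rect.2 (by push_cast; exact ⟨⟨by linarith, by linarith⟩, by linarith, by linarith⟩)))
      exact hR 6 9 7 8 (by decide) (by decide) hE3
        (mem_rect.2 (by push_cast; exact ⟨⟨by linarith, by linarith⟩, by linarith, by linarith⟩))
  have h3 : (55 : ENNReal) ≤ 50 := by
    rw [← hvol]
    refine (measure_mono hsub).trans ((volume_region_le _).trans ?_)
    rw [hE]; norm_num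
  norm_num at h3

end

/-- The deep part of the left chamber. -/
def DL : Set ℂ := interior (rect 0 5 0 6)
/-- The deep part of the right chamber. -/
def DR : Set ℂ := interior (rect 10 15 0 6)

theorem open_rect_disjoint {x0 x1 y0 y1 : ℤ} {S : Finset (ℤ × ℤ)}
    (h : ∀ c ∈ S, ¬ (x0 ≤ c.1 ∧ c.1 < x1 ∧ y0 ≤ c.2 ∧ c.2 < y1)) {z : ℂ}
    (hz : z ∈ interior (rect x0 x1 y0 y1)) : z ∉ region S := by
  intro hS
  obtain ⟨c, hc, hzc⟩ := mem_region.1 hS
  apply h c hc
  rw [interior_rect] at hz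
  rw [mem_cell] at hzc
  obtain ⟨⟨a1, a2⟩, a3, a4⟩ := hz
  obtain ⟨⟨b1, b2⟩, b3, b4⟩ := hzc
  have k1 : x0 < c.1 + 1 := by exact_mod_cast (by linarith : (x0 : ℝ) < c.1 + 1)
  have k2 : c.1 < x1 := by exact_mod_cast (by linarith : (c.1 : ℝ) < x1)
  have k3 : y0 < c.2 + 1 := by exact_mod_cast (by linarith : (y0 : ℝ) < c.2 + 1)
  have k4 : c.2 < y1 := by exact_mod_cast (by linarith : (c.2 : ℝ) < y1)
  omega

/-- The tiles that meet the deep part of the left chamber pass through the left gate. -/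
theorem deepL {F : Set (Set ℂ)} (hF : Setting F) {T : Set ℂ} (hT : T ∈ F) {z : ℂ} (hzT : z ∈ T) (hz : z ∈ DL) :
    T ≠ region X ∧ ∀ K, Skel T K → gL ∈ K := by
  have hne : T ≠ region X := by
    rintro rfl
    exact open_rect_disjoint (by decide) hz hzT
  refine ⟨hne, ?_⟩
  intro K hK
  obtain ⟨q, hq, hd⟩ := hK.near hzT
  have hqX := skel_notMem hF hT hne hK hq
  rw [dist_eq_norm] at hd
  have hre := abs_le.1 ((Complex.abs_re_le_norm (z - q)).trans hd)
  have him := abs_le.1 ((Complex.abs_im_le_norm (z - q)).trans hd)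
  rw [Complex.sub_re] at hre
  rw [Complex.sub_im] at him
  unfold DL at hz
  rw [interior_rect] at hz
  push_cast at hz
  obtain ⟨⟨a1, a2⟩, a3, a4⟩ := hz
  have k1 : 0 ≤ q.re := by
    by_contra hcon
    push Not at hcon
    exact hqX (wall_left (mem_rect.2 (by push_cast; exact ⟨⟨by linarith, by linarith⟩, by linarith, by linarith⟩)))
  have k2 : 0 ≤ q.im := by
    by_contra hcon
    push Not at hcon
    exact hqX (wall_bottom (mem_rect.2 (by push_cast; exact ⟨⟨by linarith, by linarith⟩, by linarith, by linarith⟩)))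
  have k3 : q.im ≤ 6 := by
    by_contra hcon
    push Not at hcon
    exact hqX (wall_topL (mem_rect.2 (by push_cast; exact ⟨⟨by linarith, by linarith⟩, by linarith, by linarith⟩)))
  have hqB : q ∈ BL := mem_box.2 ⟨⟨by linarith, by linarith⟩, by linarith, by linarith⟩
  by_contra hcon
  have hall : ∀ p ∈ K, p ∈ BL := by
    intro p hp
    by_contra hpB
    exact hcon (gateL hF hT hne hK hq hqB hp hpB)
  apply confined hF hT hne hK
  · intro p hp
    have := hall p hp
    unfold BL at this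
    rw [mem_box] at this
    exact mem_box.2 ⟨⟨this.1.1, by linarith [this.1.2]⟩, this.2⟩
  · intro p hp hpR
    have h1 := hall p hp
    unfold BL at h1
    unfold BR at hpR
    rw [mem_box] at h1 hpR
    linarith [h1.1.2, hpR.1.1]

/-- The deep part of the left chamber is covered by one tile. -/
theorem coverL {F : Set (Set ℂ)} (hF : Setting F) : ∃ T ∈ F, T ≠ region X ∧ DL ⊆ T ∧ ∀ K, Skel T K → gL ∈ K := by
  have h0 : (⟨1, 1⟩ : ℂ) ∈ DL := by
    unfold DL
    rw [interior_rect]
    norm_num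
  have hc : (⟨1, 1⟩ : ℂ) ∈ ⋃₀ F := by rw [hF.tiling.cover]; trivial
  obtain ⟨T, hT, hzT⟩ := hc
  obtain ⟨hne, hg⟩ := deepL hF hT hzT h0
  refine ⟨T, hT, hne, ?_, hg⟩
  intro z hz
  have hc' : z ∈ ⋃₀ F := by rw [hF.tiling.cover]; trivial
  obtain ⟨T', hT', hzT'⟩ := hc'
  obtain ⟨hne', hg'⟩ := deepL hF hT' hzT' hz
  obtain ⟨K, hK⟩ := exists_skel hF hT
  obtain ⟨K', hK'⟩ := exists_skel hF hT'
  have : T = T' := by
    by_contra hTT
    exact disjoint_left.1 (hF.tiling.disjoint T hT T' hT' hTT) (hK.interior (hg K hK)) (hK'.interior (hg' K' hK'))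
  rw [this]; exact hzT'

/-! ### The mirror image -/

/-- The reflection `x ↦ 15 - x`. -/
noncomputable def refl : ℂ ≃ᵢ ℂ :=
  IsometryEquiv.mk' (fun z => ⟨15 - z.re, z.im⟩) (fun z => ⟨15 - z.re, z.im⟩)
    (fun z => by apply Complex.ext <;> simp)
    (by
      apply Isometry.of_dist_eq
      intro z w
      rw [Complex.dist_eq_re_im, Complex.dist_eq_re_im]
      congr 1
      change (15 - z.re - (15 - w.re)) ^ 2 + (z.im - w.im) ^ 2 = _
      ring)

theorem refl_re (z : ℂ) : (refl z).re = 15 - z.re := rfl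
theorem refl_im (z : ℂ) : (refl z).im = z.im := rfl
theorem refl_refl (z : ℂ) : refl (refl z) = z := by
  apply Complex.ext
  · rw [refl_re, refl_re]; ring
  · rw [refl_im, refl_im]

theorem refl_image_image (A : Set ℂ) : refl '' (refl '' A) = A := by
  rw [image_image]
  simp only [refl_refl, image_id']

theorem X_refl_cells : ∀ c ∈ X, ((14 - c.1, c.2) : ℤ × ℤ) ∈ X := by decide

theorem X_refl : refl '' region X = region X := by
  have key : refl '' region X ⊆ region X := by
    rintro _ ⟨z, hz, rfl⟩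
    obtain ⟨c, hc, hzc⟩ := mem_region.1 hz
    refine mem_region.2 ⟨_, X_refl_cells c hc, ?_⟩
    rw [mem_cell] at hzc ⊢
    rw [refl_re, refl_im]
    push_cast
    obtain ⟨⟨a1, a2⟩, a3, a4⟩ := hzc
    exact ⟨⟨by linarith, by linarith⟩, a3, a4⟩
  apply Subset.antisymm key
  intro z hz
  exact ⟨refl z, key ⟨z, hz, rfl⟩, refl_refl z⟩

theorem tiling_image {F : Set (Set ℂ)} (h : IsTiling F) (g : ℂ ≃ᵢ ℂ) : IsTiling ((fun T => g '' T) '' F) where
  countable := h.countable.image _
  closed := by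
    rintro _ ⟨T, hT, rfl⟩
    exact g.toHomeomorph.isClosedMap _ (h.closed T hT)
  cover := by
    rw [eq_univ_iff_forall]
    intro z
    have : g.symm z ∈ ⋃₀ F := by rw [h.cover]; trivial
    obtain ⟨T, hT, hz⟩ := this
    exact ⟨g '' T, ⟨T, hT, rfl⟩, g.symm z, hz, g.apply_symm_apply z⟩
  disjoint := by
    rintro _ ⟨T, hT, rfl⟩ _ ⟨T', hT', rfl⟩ hne
    have h1 : T ≠ T' := fun he => hne (by rw [he])
    have e : ∀ A : Set ℂ, interior (g '' A) = g '' interior A := fun A => (g.toHomeomorph.image_interior A).symm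
    dsimp only
    rw [e, e]
    exact (disjoint_image_iff g.injective).2 (h.disjoint T hT T' hT' h1)

theorem ominoes_image {n : ℕ} {F : Set (Set ℂ)} (h : ByOminoes n F) (g : ℂ ≃ᵢ ℂ) :
    ByOminoes n ((fun T => g '' T) '' F) := by
  rintro _ ⟨T, hT, rfl⟩
  obtain ⟨S, hS, k, rfl⟩ := h T hT
  refine ⟨S, hS, k.trans g, ?_⟩
  dsimp only
  rw [image_image]; rfl

theorem setting_refl {F : Set (Set ℂ)} (hF : Setting F) : Setting ((fun T => refl '' T) '' F) where
  tiling := tiling_image hF.tiling refl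
  ominoes := ominoes_image hF.ominoes refl
  mem := ⟨region X, hF.mem, X_refl⟩

theorem skel_refl {T K : Set ℂ} (h : Skel T K) : Skel (refl '' T) (refl '' K) := by
  obtain ⟨S, hS, g, rfl, rfl⟩ := h
  refine ⟨S, hS, g.trans refl, ?_, ?_⟩
  · rw [image_image]; rfl
  · rw [image_image]; rfl

theorem DR_eq : refl '' DL = DR := by
  ext z
  unfold DL DR
  constructor
  · rintro ⟨w, hw, rfl⟩
    rw [interior_rect] at hw ⊢
    rw [refl_re, refl_im]
    push_cast at hw ⊢
    obtain ⟨⟨a1, a2⟩, a3, a4⟩ := hw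
    exact ⟨⟨by linarith, by linarith⟩, a3, a4⟩
  · intro hz
    refine ⟨refl z, ?_, refl_refl z⟩
    rw [interior_rect] at hz ⊢
    rw [refl_re, refl_im]
    push_cast at hz ⊢
    obtain ⟨⟨a1, a2⟩, a3, a4⟩ := hz
    exact ⟨⟨by linarith, by linarith⟩, a3, a4⟩

/-- The deep part of the right chamber is covered by one tile. -/
theorem coverR {F : Set (Set ℂ)} (hF : Setting F) : ∃ T ∈ F, T ≠ region X ∧ DR ⊆ T ∧ ∀ K, Skel T K → gR ∈ K := by
  obtain ⟨_, ⟨T, hT, rfl⟩, hne, hD, hg⟩ := coverL (setting_refl hF)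
  refine ⟨T, hT, ?_, ?_, ?_⟩
  · rintro rfl
    exact hne X_refl
  · rw [← DR_eq]
    have := image_mono (f := refl) hD
    rwa [refl_image_image] at this
  · intro K hK
    obtain ⟨q, hq, he⟩ := hg _ (skel_refl hK)
    have : q = gR := by
      rw [← refl_refl q, he]
      apply Complex.ext
      · rw [refl_re]; unfold gL gR; norm_num
      · rw [refl_im]; rfl
    rw [← this]; exact hq

/-- No tile contains the deep parts of both chambers. -/
theorem not_both {T K : Set ℂ} (hK : Skel T K) (h1 : DL ⊆ T) (h2 : DR ⊆ T) : False := by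
  have hv : volume (DL ∪ DR) = 60 := by
    rw [measure_union]
    · have e1 : volume DL = 30 := by
        unfold DL rect
        rw [Complex.interior_reProdIm, interior_Icc, interior_Icc, volume_rect_open]
        norm_num
      have e2 : volume DR = 30 := by
        rw [← DR_eq, volume_image, e1]
      rw [e1, e2]; norm_num
    · rw [disjoint_left]
      intro z hz hz'
      unfold DL at hz
      unfold DR at hz'
      rw [interior_rect] at hz hz'
      push_cast at hz hz'
      linarith [hz.1.2, hz'.1.1]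
    · exact isOpen_interior.measurableSet
  have h3 : (60 : ENNReal) ≤ 55 := by
    rw [← hv]
    exact (measure_mono (union_subset h1 h2)).trans hK.volume_le
  norm_num at h3

/-- The tile in the left chamber passes through the exit gate. -/
theorem exitL {F : Set (Set ℂ)} (hF : Setting F) : ∃ T ∈ F, DL ⊆ T ∧ gV ∈ interior T := by
  obtain ⟨T, hT, hne, hD, hg⟩ := coverL hF
  obtain ⟨T', hT', hne', hD', hg'⟩ := coverR hF
  obtain ⟨K, hK⟩ := exists_skel hF hT
  obtain ⟨K', hK'⟩ := exists_skel hF hT'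
  refine ⟨T, hT, hD, ?_⟩
  by_contra hcon
  have hgK := hg K hK
  have hV : ∀ q ∈ K, q ∈ BV := by
    intro q hq
    by_contra hqV
    apply hcon
    apply hK.interior
    apply gateV hF hT hne hK hgK _ hq hqV
    exact mem_box.2 (by unfold gL; norm_num)
  apply confined hF hT hne hK hV
  intro q hq hqR
  have h1 : gR ∈ K := by
    apply gateR hF hT hne hK hq hqR hgK
    unfold BR
    rw [mem_box]
    unfold gL
    norm_num
  have : T = T' := by
    by_contra hTT
    exact disjoint_left.1 (hF.tiling.disjoint T hT T' hT' hTT) (hK.interior h1) (hK'.interior (hg' K' hK'))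
  rw [← this] at hD'
  exact not_both hK hD hD'

/-- The tile in the right chamber passes through the exit gate. -/
theorem exitR {F : Set (Set ℂ)} (hF : Setting F) : ∃ T ∈ F, DR ⊆ T ∧ gV ∈ interior T := by
  obtain ⟨_, ⟨T, hT, rfl⟩, hD, hg⟩ := exitL (setting_refl hF)
  refine ⟨T, hT, ?_, ?_⟩
  · rw [← DR_eq]
    have := image_mono (f := refl) hD
    rwa [refl_image_image] at this
  · have e : interior (refl '' T) = refl '' interior T := (refl.toHomeomorph.image_interior T).symm
    dsimp only at hg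
    rw [e] at hg
    obtain ⟨q, hq, he⟩ := hg
    have : q = gV := by
      rw [← refl_refl q, he]
      apply Complex.ext
      · rw [refl_re]; unfold gV; norm_num
      · rw [refl_im]
    rw [← this]; exact hq

theorem no_setting (F : Set (Set ℂ)) : ¬ Setting F := by
  intro hF
  obtain ⟨T, hT, hD, hg⟩ := exitL hF
  obtain ⟨T', hT', hD', hg'⟩ := exitR hF
  have : T = T' := by
    by_contra hTT
    exact disjoint_left.1 (hF.tiling.disjoint T hT T' hT' hTT) hg hg'
  rw [← this] at hD'
  obtain ⟨K, hK⟩ := exists_skel hF hT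
  exact not_both hK hD hD'

/-- No tiling of the plane by 55-ominoes contains a copy of `X`. -/
theorem no_tiling (F : Set (Set ℂ)) (hF : IsTiling F) (hO : ByOminoes 55 F) (g : ℂ ≃ᵢ ℂ) :
    g '' region X ∉ F := by
  intro hmem
  apply no_setting ((fun T => g.symm '' T) '' F)
  refine ⟨tiling_image hF g.symm, ominoes_image hO g.symm, _, hmem, ?_⟩
  dsimp only
  rw [image_image]
  simp

/-- Some 55-omino occurs in no tiling of the plane by 55-ominoes; consequently it is not true that for every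
`n ≥ 1` there is an equitransitive tiling of the plane by `n`-ominoes in which every shape of `n`-omino
occurs. -/
theorem result :
    (∃ S, IsOmino 55 S ∧ ∀ F, IsTiling F → ByOminoes 55 F → ∀ g : ℂ ≃ᵢ ℂ, g '' region S ∉ F) ∧
    ¬ (∀ n : ℕ, 1 ≤ n → ∃ F, IsTiling F ∧ ByOminoes n F ∧ Equitransitive F ∧
      ∀ S, IsOmino n S → ∃ g : ℂ ≃ᵢ ℂ, g '' region S ∈ F) := by
  refine ⟨⟨X, X_omino, fun F hF hO g => no_tiling F hF hO g⟩, ?_⟩
  intro h
  obtain ⟨F, hF, hO, -, hall⟩ := h 55 (by norm_num)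
  obtain ⟨g, hg⟩ := hall X X_omino
  exact no_tiling F hF hO g hg

end Pool.Agent.Results.MP_60dc17_co.NotEvery
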